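import Pool.Agent.H77.Df.Count

/-!
# The fan inequality at full degree

`fan_count` of helper77 (H77/Df/Count) with the weaker hypothesis that all degrees are at most `k d`.
-/

set_option autoImplicit false

open Finset
open scoped Classical

namespace Pool.Agent.H42.LD

open Pool.Agent.H77.Df

variable {V E : Type} {G : MG V E}

theorem fan_le [Fintype V] [Fintype E] {k d : ℕ} {A : Finset E} {e : E} {c : E → Fin k} {x y : V}
    (h : G.St d A e c x y) (hdeg : ∀ v, G.deg A v ≤ k * d) :
    ∃ F : Finset V, x ∈ F ∧ y ∉ F ∧ (∀ z ∈ F, ∃ g ∈ A, G.joins g y z) ∧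
      1 + d + d * ∑ z ∈ F, (k * d - G.deg A z) ≤ (A.filter (fun g => ∃ z ∈ F, G.joins g y z)).card := by
  have hxy : x ≠ y := count_joins_ne h.jn
  have hex : G.inc e x := (count_joins_inc h.jn).2 (Or.inl rfl)
  have hey : G.inc e y := (count_joins_inc h.jn).2 (Or.inr rfl)
  have hdx := count_deg_erase_of h.mem hex
  have hdy := count_deg_erase_of h.mem hey
  -- colours are missing at `x` and at `y`
  have hne : ∀ v, G.inc e v → (G.miss d c (A.erase e) v).Nonempty := by
    intro v hev
    by_contra hcon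
    rw [Finset.not_nonempty_iff_eq_empty] at hcon
    have h1 := miss_card (v := v) h.val (by
      intro q hq
      rw [hcon] at hq
      exact absurd hq (Finset.notMem_empty q))
    rw [hcon, Finset.card_empty, zero_add] at h1
    have h2 := hdeg v
    have h3 := count_deg_erase_of h.mem hev
    omega
  obtain ⟨qy, hqy⟩ := hne y hey
  obtain ⟨qx, hqx⟩ := hne x hex
  set F : Finset V := Finset.univ.filter (fun z => ∃ L, G.Chn d c (A.erase e) y x L z) with hF
  have hmF : ∀ z, z ∈ F ↔ ∃ L, G.Chn d c (A.erase e) y x L z := by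
    intro z
    rw [hF, Finset.mem_filter]
    simp
  have hxF : x ∈ F := (hmF x).2 ⟨[], MG.Chn.nil x⟩
  have hjF : ∀ z ∈ F, ∃ g ∈ A, G.joins g y z := by
    intro z hz
    obtain ⟨L, hL⟩ := (hmF z).1 hz
    rcases count_chn_end hL with h1 | ⟨f, hf, hj⟩
    · subst h1
      exact ⟨e, h.mem, count_joins_symm h.jn⟩
    · exact ⟨f, Finset.mem_of_mem_erase hf, hj⟩
  have hyF : y ∉ F := by
    intro hy
    obtain ⟨g, _, hg⟩ := hjF y hy
    exact count_joins_ne hg rfl
  -- sizes
  have hsz : ∀ z ∈ F, z ≠ x → (G.miss d c (A.erase e) z).card = k * d - G.deg A z := by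
    intro z hz hzx
    obtain ⟨L, hL⟩ := (hmF z).1 hz
    have h1 := miss_card (v := z) h.val (fun q hq => (fanA h hL hq hqy).2)
    have hzy : z ≠ y := fun h2 => hyF (h2 ▸ hz)
    have h2 : ¬ G.inc e z := by
      rw [count_joins_inc h.jn]
      rintro (h3 | h3)
      · exact hzx h3
      · exact hzy h3
    rw [count_deg_erase_of_not h2] at h1
    omega
  have hsx : (G.miss d c (A.erase e) x).card = k * d - G.deg A x + 1 := by
    have h1 := miss_card (v := x) h.val (fun q hq => (kempe_xy h hq hqy).1)
    have h2 := hdeg x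
    omega
  have hsum : ∑ z ∈ F, (G.miss d c (A.erase e) z).card = ∑ z ∈ F, (k * d - G.deg A z) + 1 := by
    rw [← Finset.add_sum_erase F _ hxF, ← Finset.add_sum_erase F (fun z => k * d - G.deg A z) hxF, hsx]
    have h1 : ∑ z ∈ F.erase x, (G.miss d c (A.erase e) z).card = ∑ z ∈ F.erase x, (k * d - G.deg A z) := by
      refine Finset.sum_congr rfl fun z hz => ?_
      rw [Finset.mem_erase] at hz
      exact hsz z hz.2 hz.1
    rw [h1]
    ring
  -- disjointness
  have hdis : ∀ z ∈ F, ∀ z' ∈ F, z ≠ z' →
      Disjoint (G.miss d c (A.erase e) z) (G.miss d c (A.erase e) z') := by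
    intro z hz z' hz' hzz
    rw [Finset.disjoint_left]
    intro q hq hq'
    exact hzz (fanB h ⟨qy, hqy⟩ ((hmF z).1 hz) ((hmF z').1 hz') hq hq')
  have hdisy : ∀ z ∈ F, Disjoint (G.miss d c (A.erase e) z) (G.miss d c (A.erase e) y) := by
    intro z hz
    rw [Finset.disjoint_left]
    intro q hq hq'
    obtain ⟨L, hL⟩ := (hmF z).1 hz
    exact (fanA h hL hq hq').1 rfl
  refine ⟨F, hxF, hyF, hjF, ?_⟩
  · -- the edges between `y` and `F`
    set M : Finset (Fin k) := F.biUnion (fun z => G.miss d c (A.erase e) z) with hM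
    have hMc : M.card = ∑ z ∈ F, (k * d - G.deg A z) + 1 := by
      rw [hM, Finset.card_biUnion hdis, hsum]
    have hMd : ∀ q ∈ M, G.dg c (A.erase e) q y = d := by
      intro q hq
      rw [hM, Finset.mem_biUnion] at hq
      obtain ⟨z, hz, hqz⟩ := hq
      have h1 : q ∉ G.miss d c (A.erase e) y := fun h2 => (Finset.disjoint_left.1 (hdisy z hz)) hqz h2
      rw [count_mem_miss] at h1
      have h2 := h.val q y
      omega
    have hsub : insert e (M.biUnion (fun q => ((A.erase e).filter (fun g => c g = q)).filter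
        (fun g => G.inc g y))) ⊆ A.filter (fun g => ∃ z ∈ F, G.joins g y z) := by
      intro g hg
      rw [Finset.mem_insert] at hg
      rw [Finset.mem_filter]
      rcases hg with hg | hg
      · subst hg
        exact ⟨h.mem, x, hxF, count_joins_symm h.jn⟩
      · rw [Finset.mem_biUnion] at hg
        obtain ⟨q, hq, hg⟩ := hg
        rw [Finset.mem_filter, Finset.mem_filter] at hg
        obtain ⟨⟨hgB, hgq⟩, hgy⟩ := hg
        obtain ⟨z', hz'⟩ := count_inc_joins hgy
        rw [hM, Finset.mem_biUnion] at hq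
        obtain ⟨z, hz, hqz⟩ := hq
        obtain ⟨L, hL⟩ := (hmF z).1 hz
        refine ⟨Finset.mem_of_mem_erase hgB, z', ?_, hz'⟩
        refine (hmF z').2 ⟨L ++ [(g, z')], chn_append hL hgB hz' ?_⟩
        rw [hgq]
        exact hqz
    refine le_trans ?_ (Finset.card_le_card hsub)
    rw [Finset.card_insert_of_notMem, Finset.card_biUnion]
    · have h1 : ∀ q ∈ M, (((A.erase e).filter (fun g => c g = q)).filter (fun g => G.inc g y)).card = d := by
        intro q hq
        exact hMd q hq
      rw [Finset.sum_congr rfl h1, Finset.sum_const, smul_eq_mul, hMc]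
      apply le_of_eq
      ring
    · intro q _ q' _ hqq
      refine Finset.disjoint_left.2 ?_
      intro g hg hg'
      rw [Finset.mem_filter, Finset.mem_filter] at hg hg'
      exact hqq (hg.1.2.symm.trans hg'.1.2)
    · intro hcon
      rw [Finset.mem_biUnion] at hcon
      obtain ⟨q, _, hg⟩ := hcon
      rw [Finset.mem_filter, Finset.mem_filter] at hg
      exact (Finset.mem_erase.1 hg.1.1).1 rfl

end Pool.Agent.H42.LD
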