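import Pool.Agent.H42.LD.Fan
import Pool.Agent.H77.Df.Fin

/-!
# Edge colouring of multigraphs with sparse underlying graph: the local theorem

`G` is a loopless multigraph, `toS G B v S` is the number of edges of `B` between `v` and the vertex set `S`.
-/

set_option autoImplicit false

open Finset
open scoped Classical

namespace Pool.Agent.H42.LD

open Pool.Agent.H77.Df

variable {V E : Type}

/-- number of edges of `B` between `v` and `S` -/
noncomputable def toS (G : MG V E) (B : Finset E) (v : V) (S : Finset V) : ℕ :=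
  (B.filter (fun g => ∃ z ∈ S, G.joins g v z)).card

/-- neighbours of `v` by edges of `B` -/
noncomputable def nb [Fintype V] (G : MG V E) (B : Finset E) (v : V) : Finset V :=
  Finset.univ.filter (fun u => ∃ g ∈ B, G.joins g v u)

theorem toS_mono (G : MG V E) {B B' : Finset E} (h : B ⊆ B') (v : V) {S S' : Finset V} (hS : S ⊆ S') :
    toS G B v S ≤ toS G B' v S' := by
  unfold toS
  refine Finset.card_le_card ?_
  intro g hg
  rw [Finset.mem_filter] at hg ⊢
  obtain ⟨h1, z, hz, hj⟩ := hg
  exact ⟨h h1, z, hS hz, hj⟩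

theorem toS_symm (G : MG V E) (B : Finset E) (x y : V) : toS G B x {y} = toS G B y {x} := by
  unfold toS
  congr 1
  ext g
  simp only [Finset.mem_filter, Finset.mem_singleton, exists_eq_left]
  exact ⟨fun h => ⟨h.1, count_joins_symm h.2⟩, fun h => ⟨h.1, count_joins_symm h.2⟩⟩

theorem deg_le_toS [Fintype V] (G : MG V E) (B : Finset E) (v : V) : G.deg B v ≤ toS G B v (nb G B v) := by
  unfold toS MG.deg
  refine Finset.card_le_card ?_
  intro g hg
  rw [Finset.mem_filter] at hg ⊢
  obtain ⟨u, hu⟩ := count_inc_joins hg.2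
  refine ⟨hg.1, u, ?_, hu⟩
  unfold nb
  rw [Finset.mem_filter]
  exact ⟨Finset.mem_univ _, g, hg.1, hu⟩

theorem toS_split (G : MG V E) (B : Finset E) (y : V) (F W : Finset V) :
    toS G B y F ≤ toS G B y (F ∩ W) + ∑ z ∈ F \ W, toS G B y {z} := by
  have h1 : B.filter (fun g => ∃ z ∈ F, G.joins g y z) ⊆
      B.filter (fun g => ∃ z ∈ F ∩ W, G.joins g y z) ∪
        (F \ W).biUnion (fun z => B.filter (fun g => ∃ u ∈ ({z} : Finset V), G.joins g y u)) := by
    intro g hg
    rw [Finset.mem_filter] at hg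
    obtain ⟨hgB, z, hz, hj⟩ := hg
    rw [Finset.mem_union]
    by_cases hw : z ∈ W
    · left
      rw [Finset.mem_filter]
      exact ⟨hgB, z, Finset.mem_inter.2 ⟨hz, hw⟩, hj⟩
    · right
      rw [Finset.mem_biUnion]
      refine ⟨z, Finset.mem_sdiff.2 ⟨hz, hw⟩, ?_⟩
      rw [Finset.mem_filter]
      exact ⟨hgB, z, Finset.mem_singleton_self z, hj⟩
  unfold toS
  refine (Finset.card_le_card h1).trans ((Finset.card_union_le _ _).trans ?_)
  exact Nat.add_le_add_left Finset.card_biUnion_le _

theorem arith_end {k S tF tFW tx R S' dx uS uT ux : ℕ} (h1 : 2 + S ≤ tF) (h2 : tF ≤ tFW + (tx + R))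
    (h8 : R ≤ S') (h9 : (k - dx) + S' ≤ S) (h10 : uS + uT + ux ≤ k + 1) (h11 : dx ≤ uS) (h12 : tFW ≤ uT)
    (h13 : tx ≤ ux) (h14 : dx ≤ k) : False := by omega

theorem arith_term {k t1 t2 t3 d w : ℕ} (h3 : t1 + t2 + t3 ≤ k + 1) (h4 : 1 ≤ t1) (h5 : d ≤ t2)
    (h6 : w ≤ t3) (h7 : d ≤ k) : w ≤ k - d := by omega

theorem local_colour [Fintype V] [Fintype E] (G : MG V E) (k D : ℕ) (hD : 1 ≤ D)
    (hdeg : ∀ v, G.deg Finset.univ v ≤ k)
    (hdg : ∀ X : Finset V, X.Nonempty → ∃ v ∈ X, (X.filter (fun u => ∃ g, G.joins g v u)).card ≤ D)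
    (hloc : ∀ (e : E) (x y : V), G.joins e x y → ∀ S T : Finset V, S.card ≤ D → T.card ≤ D →
      toS G Finset.univ x S + toS G Finset.univ y T + toS G Finset.univ x {y} ≤ k + 1) :
    G.Colourable 1 k Finset.univ := by
  by_contra hcon
  obtain ⟨A, hA, hmin⟩ := fin_min G 1 k _ Finset.univ rfl hcon
  have hdA : ∀ v, G.deg A v ≤ k := fun v => (fin_deg_mono G A v).trans (hdeg v)
  have hne : A.Nonempty := by
    rw [Finset.nonempty_iff_ne_empty]
    rintro rfl
    apply hA
    obtain ⟨c⟩ : Nonempty (E → Fin k) := by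
      rcases isEmpty_or_nonempty E with hE | hE
      · exact ⟨fun e => isEmptyElim e⟩
      · obtain ⟨e⟩ := hE
        have h1 := hdeg (G.s e)
        have h2 : 0 < G.deg Finset.univ (G.s e) := by
          unfold MG.deg
          rw [Finset.card_pos]
          exact ⟨e, Finset.mem_filter.2 ⟨Finset.mem_univ _, Or.inl rfl⟩⟩
        exact ⟨fun _ => ⟨0, by omega⟩⟩
    refine ⟨c, fun a v => ?_⟩
    unfold MG.dg MG.deg
    simp
  set W : Finset V := Finset.univ.filter (fun v => D < (nb G A v).card) with hW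
  have hmW : ∀ v, v ∈ W ↔ D < (nb G A v).card := by
    intro v
    rw [hW, Finset.mem_filter]
    simp
  -- the main step
  have key : ∀ (e : E) (x y : V), e ∈ A → G.joins e x y → x ∉ W →
      ((nb G A y) ∩ W).card ≤ D → False := by
    intro e x y he hj hx hy
    obtain ⟨c, hc⟩ := hmin e he
    have hst : G.St 1 A e c x y := ⟨hA, he, hj, hc⟩
    obtain ⟨F, hxF, hyF, hjF, h1⟩ := fan_le hst (by
      intro v
      rw [mul_one]
      exact hdA v)
    have hF : (A.filter (fun g => ∃ z ∈ F, G.joins g y z)).card = toS G A y F := rfl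
    rw [hF] at h1
    have h2 := toS_split G A y F W
    have hnbF : F ⊆ nb G A y := by
      intro z hz
      obtain ⟨g, hg, hgj⟩ := hjF z hz
      unfold nb
      rw [Finset.mem_filter]
      exact ⟨Finset.mem_univ _, g, hg, hgj⟩
    have hFW : (F ∩ W).card ≤ D :=
      (Finset.card_le_card (Finset.inter_subset_inter_right hnbF)).trans hy
    have hterm : ∀ z ∈ F \ W, toS G A y {z} ≤ k - G.deg A z := by
      intro z hz
      rw [Finset.mem_sdiff] at hz
      obtain ⟨g, hg, hgj⟩ := hjF z hz.1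
      have hzW : (nb G A z).card ≤ D := by
        have := hz.2
        rw [hmW] at this
        omega
      have h3 := hloc g y z hgj {z} (nb G A z) (by rw [Finset.card_singleton]; exact hD) hzW
      have h4 : 1 ≤ toS G Finset.univ y {z} := by
        unfold toS
        rw [Nat.succ_le_iff, Finset.card_pos]
        exact ⟨g, Finset.mem_filter.2 ⟨Finset.mem_univ _, z, Finset.mem_singleton_self z, hgj⟩⟩
      have h5 : G.deg A z ≤ toS G Finset.univ z (nb G A z) :=
        (deg_le_toS G A z).trans (toS_mono G (Finset.subset_univ A) z (Finset.Subset.refl _))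
      have h6 : toS G A y {z} ≤ toS G Finset.univ y {z} :=
        toS_mono G (Finset.subset_univ A) y (Finset.Subset.refl _)
      exact arith_term h3 h4 h5 h6 (hdA z)
    have hxFW : x ∈ F \ W := Finset.mem_sdiff.2 ⟨hxF, hx⟩
    have h8 : ∑ z ∈ (F \ W).erase x, toS G A y {z} ≤ ∑ z ∈ (F \ W).erase x, (k - G.deg A z) :=
      Finset.sum_le_sum fun z hz => hterm z (Finset.mem_of_mem_erase hz)
    have h9 : ∑ z ∈ F \ W, (k - G.deg A z) ≤ ∑ z ∈ F, (k - G.deg A z) :=
      Finset.sum_le_sum_of_subset Finset.sdiff_subset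
    rw [← Finset.add_sum_erase _ _ hxFW] at h9
    rw [← Finset.add_sum_erase _ _ hxFW] at h2
    have hxW : (nb G A x).card ≤ D := by
      rw [hmW] at hx
      omega
    have h10 := hloc e x y hj (nb G A x) (F ∩ W) hxW hFW
    have h11 : G.deg A x ≤ toS G Finset.univ x (nb G A x) :=
      (deg_le_toS G A x).trans (toS_mono G (Finset.subset_univ A) x (Finset.Subset.refl _))
    have h12 : toS G A y (F ∩ W) ≤ toS G Finset.univ y (F ∩ W) :=
      toS_mono G (Finset.subset_univ A) y (Finset.Subset.refl _)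
    have h13 : toS G A y {x} ≤ toS G Finset.univ x {y} := by
      rw [toS_symm G Finset.univ x y]
      exact toS_mono G (Finset.subset_univ A) y (Finset.Subset.refl _)
    have h1' : 2 + ∑ z ∈ F, (k - G.deg A z) ≤ toS G A y F := by
      have h15 : 1 + 1 + 1 * ∑ z ∈ F, (k * 1 - G.deg A z) = 2 + ∑ z ∈ F, (k - G.deg A z) := by
        rw [one_mul, mul_one]
      rw [← h15]
      exact h1
    exact arith_end h1' h2 h8 h9 h10 h11 h12 h13 (hdA x)
  -- the choice of the edge
  by_cases hWe : W.Nonempty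
  · obtain ⟨y, hy, hyc⟩ := hdg W hWe
    have h1 : (nb G A y ∩ W).card ≤ D := by
      refine le_trans (Finset.card_le_card ?_) hyc
      intro u hu
      rw [Finset.mem_inter] at hu
      rw [Finset.mem_filter]
      refine ⟨hu.2, ?_⟩
      have := hu.1
      unfold nb at this
      rw [Finset.mem_filter] at this
      obtain ⟨_, g, _, hg⟩ := this
      exact ⟨g, hg⟩
    have h2 := (hmW y).1 hy
    have h3 : ∃ x ∈ nb G A y, x ∉ W := by
      by_contra hcon2
      push Not at hcon2
      have h4 : nb G A y ⊆ nb G A y ∩ W := fun u hu => Finset.mem_inter.2 ⟨hu, hcon2 u hu⟩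
      have h5 := Finset.card_le_card h4
      omega
    obtain ⟨x, hx, hxW⟩ := h3
    have hx' := hx
    unfold nb at hx'
    rw [Finset.mem_filter] at hx'
    obtain ⟨_, e, he, hej⟩ := hx'
    exact key e x y he (count_joins_symm hej) hxW h1
  · rw [Finset.not_nonempty_iff_eq_empty] at hWe
    obtain ⟨e, he⟩ := hne
    refine key e (G.s e) (G.t e) he (Or.inl ⟨rfl, rfl⟩) ?_ ?_
    · rw [hWe]
      exact Finset.notMem_empty _
    · rw [hWe, Finset.inter_empty, Finset.card_empty]
      exact Nat.zero_le _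

end Pool.Agent.H42.LD
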