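import Pool.Agent.H42.LD.Sparse

/-!
# The Petersen graph minus a vertex inside the double cone over the spider

The Petersen graph is the Kneser graph of the two-element subsets of `Fin 5`; the vertex `{0, 1}` is deleted.
-/

set_option autoImplicit false

namespace Pool.Agent.H42.LD

open Pool.Agent.H51

/-- the place of a two-element set in the double cone over the spider -/
def idx (s : Finset (Fin 5)) : Option (Option (Fin 7)) :=
  if s = {0, 2} then none else if s = {0, 3} then some none else if s = {0, 4} then some (some 0)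
  else if s = {1, 2} then some (some 1) else if s = {1, 3} then some (some 2)
  else if s = {2, 3} then some (some 3) else if s = {3, 4} then some (some 4)
  else if s = {2, 4} then some (some 5) else some (some 6)

/-- adjacency in the double cone over the spider -/
def cadj : Option (Option (Fin 7)) → Option (Option (Fin 7)) → Bool
  | none, none => false
  | none, some _ => true
  | some _, none => true
  | some none, some none => false
  | some none, some (some _) => true
  | some (some _), some none => true
  | some (some i), some (some j) => spB i j || spB j i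

theorem cadj_adj (a b : Option (Option (Fin 7))) (h : cadj a b = true) : (cone (cone spider)).Adj a b := by
  rcases a with _ | _ | i <;> rcases b with _ | _ | j
  · exact absurd h (by decide)
  · trivial
  · trivial
  · trivial
  · exact absurd h (by decide)
  · trivial
  · trivial
  · trivial
  · unfold cadj at h
    rw [Bool.or_eq_true] at h
    exact h

theorem idx_inj : ∀ s t : Finset (Fin 5), s.card = 2 → s ≠ {0, 1} → t.card = 2 → t ≠ {0, 1} →
    idx s = idx t → s = t := by
  decide +kernel

theorem idx_adj : ∀ s t : Finset (Fin 5), s.card = 2 → s ≠ {0, 1} → t.card = 2 → t ≠ {0, 1} →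
    Disjoint s t → cadj (idx s) (idx t) = true := by
  decide +kernel

theorem conn_induce {V : Type} (G : SimpleGraph V) (S : Set V) (hne : S.Nonempty) (h : Conn G S) :
    (G.induce S).Connected := by
  rw [SimpleGraph.connected_iff]
  refine ⟨?_, hne.to_subtype⟩
  rintro ⟨a, ha⟩ ⟨b, hb⟩
  have key : ∀ c, Relation.ReflTransGen (fun u v => u ∈ S ∧ v ∈ S ∧ G.Adj u v) a c → ∀ hc : c ∈ S,
      (G.induce S).Reachable ⟨a, ha⟩ ⟨c, hc⟩ := by
    intro c hac
    induction hac with
    | refl => intro hc; exact SimpleGraph.Reachable.refl _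
    | @tail y z _ hstep ih =>
      intro hz
      obtain ⟨hy, hz', hadj⟩ := hstep
      refine (ih hy).trans (SimpleGraph.Adj.reachable ?_)
      exact hadj
  exact key b (h a ha b hb) hb

/-- from the double cone to the Petersen graph minus a vertex, in the form of the frozen statement -/
theorem pet_of_minor {V E : Type} (f : E → Sym2 V)
    (h : Minor (SimpleGraph.fromEdgeSet (Set.range f)) (cone (cone spider))) :
    ∃ B : {s : Finset (Fin 5) // s.card = 2 ∧ s ≠ {0, 1}} → Set V,
      (∀ i j, i ≠ j → Disjoint (B i) (B j)) ∧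
      (∀ i, ((SimpleGraph.fromEdgeSet (Set.range f)).induce (B i)).Connected) ∧
      (∀ i j, Disjoint i.1 j.1 →
        ∃ (e : E) (x y : V), x ∈ B i ∧ y ∈ B j ∧ f e = s(x, y)) := by
  obtain ⟨C, hCc, hCd, hCa⟩ := h
  refine ⟨fun i => C (idx i.1), ?_, ?_, ?_⟩
  · intro i j hij
    apply hCd
    intro hcon
    exact hij (Subtype.ext (idx_inj i.1 j.1 i.2.1 i.2.2 j.2.1 j.2.2 hcon))
  · intro i
    apply conn_induce _ _ _ (hCc _)
    obtain ⟨v, hv⟩ := cone_nb (cone spider) (idx i.1)
    obtain ⟨a, ha, _⟩ := hCa _ _ hv
    exact ⟨a, ha⟩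
  · intro i j hij
    have h1 := cadj_adj _ _ (idx_adj i.1 j.1 i.2.1 i.2.2 j.2.1 j.2.2 hij)
    obtain ⟨a, ha, b, hb, hab⟩ := hCa _ _ h1
    rw [SimpleGraph.fromEdgeSet_adj] at hab
    obtain ⟨⟨e, he⟩, _⟩ := hab
    exact ⟨e, a, b, ha, hb, he⟩

end Pool.Agent.H42.LD
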