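import Pool.Agent.H42.LD.Local
import Pool.Agent.H42.LD.Pet

/-!
# The theorems for multigraphs given by `f : E → Sym2 V`
-/

set_option autoImplicit false

open Finset
open scoped Classical

namespace Pool.Agent.H42.LD

open Pool.Agent.H77.Df Pool.Agent.H51

variable {V E : Type}

theorem exists_mg (f : E → Sym2 V) (hl : ∀ e, ¬ (f e).IsDiag) :
    ∃ G : MG V E, (∀ e x y, G.joins e x y ↔ f e = s(x, y)) ∧ ∀ e v, G.inc e v ↔ v ∈ f e := by
  have h : ∀ e, ∃ p : V × V, f e = s(p.1, p.2) := by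
    intro e
    induction f e using Sym2.ind with
    | _ x y => exact ⟨(x, y), rfl⟩
  choose p hp using h
  refine ⟨⟨fun e => (p e).1, fun e => (p e).2, ?_⟩, ?_, ?_⟩
  · intro e h
    apply hl e
    rw [hp e]
    exact Sym2.mk_isDiag_iff.2 h
  · intro e x y
    rw [hp e, Sym2.eq_iff]
    exact Iff.rfl
  · intro e v
    rw [hp e, Sym2.mem_iff]
    unfold MG.inc
    constructor
    · rintro (h | h)
      · exact Or.inl h.symm
      · exact Or.inr h.symm
    · rintro (h | h)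
      · exact Or.inl h.symm
      · exact Or.inr h.symm

theorem local_sym [Fintype V] [Fintype E] (f : E → Sym2 V) (hl : ∀ e, ¬ (f e).IsDiag) (k D : ℕ)
    (hD : 1 ≤ D)
    (hdg : ∀ X : Finset V, X.Nonempty → ∃ v ∈ X, (X.filter (fun u => ∃ e, f e = s(v, u))).card ≤ D)
    (hdeg : ∀ v, (univ.filter (fun e : E => v ∈ f e)).card ≤ k)
    (hloc : ∀ (e : E) (x y : V), f e = s(x, y) → ∀ S T : Finset V, S.card ≤ D → T.card ≤ D →
      (univ.filter (fun g : E => ∃ z ∈ S, f g = s(x, z))).card +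
        (univ.filter (fun g : E => ∃ z ∈ T, f g = s(y, z))).card +
        (univ.filter (fun g : E => f g = s(x, y))).card ≤ k + 1) :
    ∃ c : E → Fin k, ∀ e₁ e₂ : E, e₁ ≠ e₂ → (∃ v, v ∈ f e₁ ∧ v ∈ f e₂) → c e₁ ≠ c e₂ := by
  obtain ⟨G, hj, hi⟩ := exists_mg f hl
  have hto : ∀ (v : V) (S : Finset V), toS G univ v S = (univ.filter (fun g : E => ∃ z ∈ S, f g = s(v, z))).card := by
    intro v S
    unfold toS
    congr 1
    ext g
    simp only [mem_filter, mem_univ, true_and, hj]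
  have hto1 : ∀ x y : V, toS G univ x {y} = (univ.filter (fun g : E => f g = s(x, y))).card := by
    intro x y
    rw [hto]
    congr 1
    ext g
    simp only [mem_filter, mem_univ, true_and, mem_singleton, exists_eq_left]
  have hc : G.Colourable 1 k univ := by
    apply local_colour G k D hD
    · intro v
      unfold MG.deg
      have h1 : (univ.filter (fun e => G.inc e v)) = univ.filter (fun e : E => v ∈ f e) := by
        ext e
        simp only [mem_filter, mem_univ, true_and, hi]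
      rw [h1]
      exact hdeg v
    · intro X hX
      obtain ⟨v, hv, hvc⟩ := hdg X hX
      refine ⟨v, hv, ?_⟩
      have h1 : X.filter (fun u => ∃ g, G.joins g v u) = X.filter (fun u => ∃ e, f e = s(v, u)) := by
        ext u
        simp only [mem_filter, hj]
      rw [h1]
      exact hvc
    · intro e x y hxy S T hS hT
      rw [hto, hto, hto1]
      exact hloc e x y ((hj e x y).1 hxy) S T hS hT
  obtain ⟨c, hc⟩ := hc
  refine ⟨c, ?_⟩
  rintro e₁ e₂ hne ⟨v, hv1, hv2⟩ hcc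
  have h1 := hc (c e₁) v
  unfold MG.dg MG.deg at h1
  rw [Finset.card_le_one] at h1
  apply hne
  apply h1
  · rw [mem_filter, mem_filter]
    exact ⟨⟨mem_univ _, rfl⟩, (hi _ _).2 hv1⟩
  · rw [mem_filter, mem_filter]
    exact ⟨⟨mem_univ _, hcc.symm⟩, (hi _ _).2 hv2⟩

theorem to_le [Fintype E] (f : E → Sym2 V) (hl : ∀ e, ¬ (f e).IsDiag) (m : ℕ)
    (hm : ∀ x y : V, x ≠ y → (univ.filter (fun g : E => f g = s(x, y))).card ≤ m) (x : V) (S : Finset V) :
    (univ.filter (fun g : E => ∃ z ∈ S, f g = s(x, z))).card ≤ S.card * m := by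
  have h1 : (univ.filter (fun g : E => ∃ z ∈ S, f g = s(x, z))) ⊆
      S.biUnion (fun z => univ.filter (fun g : E => f g = s(x, z))) := by
    intro g hg
    rw [mem_filter] at hg
    obtain ⟨_, z, hz, hgz⟩ := hg
    rw [mem_biUnion]
    exact ⟨z, hz, mem_filter.2 ⟨mem_univ _, hgz⟩⟩
  refine (card_le_card h1).trans ?_
  apply card_biUnion_le_card_mul
  intro z _
  by_cases hxz : x = z
  · have h2 : (univ.filter (fun g : E => f g = s(x, z))) = ∅ := by
      rw [filter_eq_empty_iff]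
      intro g _ hg
      apply hl g
      rw [hg]
      exact Sym2.mk_isDiag_iff.2 hxz
    rw [h2, card_empty]
    exact Nat.zero_le _
  · exact hm x z hxz

theorem large_deg [Fintype V] [Fintype E] (f : E → Sym2 V) (hl : ∀ e, ¬ (f e).IsDiag) (k D m : ℕ)
    (hD : 1 ≤ D)
    (hdg : ∀ X : Finset V, X.Nonempty → ∃ v ∈ X, (X.filter (fun u => ∃ e, f e = s(v, u))).card ≤ D)
    (hdeg : ∀ v, (univ.filter (fun e : E => v ∈ f e)).card ≤ k)
    (hm : ∀ x y : V, x ≠ y → (univ.filter (fun g : E => f g = s(x, y))).card ≤ m)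
    (hk : (2 * D + 1) * m ≤ k + 1) :
    ∃ c : E → Fin k, ∀ e₁ e₂ : E, e₁ ≠ e₂ → (∃ v, v ∈ f e₁ ∧ v ∈ f e₂) → c e₁ ≠ c e₂ := by
  refine local_sym f hl k D hD hdg hdeg ?_
  intro e x y hxy S T hS hT
  have hne : x ≠ y := by
    intro h
    apply hl e
    rw [hxy]
    exact Sym2.mk_isDiag_iff.2 h
  have h1 := (to_le f hl m hm x S).trans (Nat.mul_le_mul_right m hS)
  have h2 := (to_le f hl m hm y T).trans (Nat.mul_le_mul_right m hT)
  have h3 := hm x y hne
  have h4 : (2 * D + 1) * m = D * m + D * m + m := by ring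
  rw [h4] at hk
  exact (add_le_add (add_le_add h1 h2) h3).trans hk

theorem pstar_degenerate (f : E → Sym2 V) (hl : ∀ e, ¬ (f e).IsDiag)
    (hP : ¬ ∃ B : {s : Finset (Fin 5) // s.card = 2 ∧ s ≠ {0, 1}} → Set V,
      (∀ i j, i ≠ j → Disjoint (B i) (B j)) ∧
      (∀ i, ((SimpleGraph.fromEdgeSet (Set.range f)).induce (B i)).Connected) ∧
      (∀ i j, Disjoint i.1 j.1 →
        ∃ (e : E) (x y : V), x ∈ B i ∧ y ∈ B j ∧ f e = s(x, y)))
    (X : Finset V) (hX : X.Nonempty) :
    ∃ v ∈ X, (X.filter (fun u => ∃ e, f e = s(v, u))).card ≤ 23 := by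
  obtain ⟨v, hv, hvc⟩ := degenerate (SimpleGraph.fromEdgeSet (Set.range f))
    (fun h => hP (pet_of_minor f h)) X hX
  refine ⟨v, hv, le_trans (card_le_card ?_) hvc⟩
  intro u hu
  obtain ⟨hu1, e, he⟩ := mem_filter.1 hu
  refine (@mem_filter _ _ (fun _ => Classical.propDecidable _) _ _).2 ⟨hu1, ?_⟩
  rw [SimpleGraph.fromEdgeSet_adj]
  refine ⟨⟨e, he⟩, ?_⟩
  intro h
  apply hl e
  rw [he]
  exact Sym2.mk_isDiag_iff.2 h

end Pool.Agent.H42.LD
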