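import Pool.Agent.H51.Minor

/-!
# Graphs without a Petersen-minus-a-vertex minor are 23-degenerate

Two contraction steps: a graph with at least `12 n` edges has a minor in which a vertex `x` has a neighbourhood of minimum
degree at least `12`, and this neighbourhood has a minor in which a vertex `y` has a neighbourhood of minimum degree at
least `6`, which contains the spider with three legs of length two.
-/

set_option autoImplicit false

open Finset

namespace Pool.Agent.H42.LD

open Pool.Agent.H51

open Classical in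
theorem dense_step (c : ℕ) (hc : 1 ≤ c) : ∀ (m : ℕ) (W : Type) [Fintype W] (H : SimpleGraph W),
    Fintype.card W = m → 0 < m → 2 * c * m ≤ ord H →
    ∃ (W' : Type) (_ : Fintype W') (H' : SimpleGraph W') (x : W'), Minor H H' ∧ (∃ b, H'.Adj x b) ∧
      ∀ z, H'.Adj x z → c ≤ (univ.filter fun w => H'.Adj x w ∧ H'.Adj z w).card := by
  intro m
  induction m using Nat.strong_induction_on with
  | _ m ihm =>
    intro W _ H hm hm0 hord
    by_cases hcc : ∃ x y, H.Adj x y ∧ (univ.filter fun z => H.Adj x z ∧ H.Adj y z).card < c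
    · obtain ⟨x, y, hxy, hcn⟩ := hcc
      have h1 := ord_contract H x y hxy
      have hcard : Fintype.card {w : W // w ≠ y} = m - 1 := by
        have := Fintype.card_subtype_compl (fun w : W => w = y)
        rw [Fintype.card_subtype_eq, hm] at this
        exact this
      have hm2 : 1 < m := by
        rw [← hm, Fintype.one_lt_card_iff]
        exact ⟨x, y, hxy.ne⟩
      have e1 : 2 * c * m = 2 * c * (m - 1) + 2 * c := by
        obtain ⟨m', rfl⟩ : ∃ m', m = m' + 1 := ⟨m - 1, by omega⟩
        simp only [Nat.add_sub_cancel]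
        ring
      obtain ⟨W', i, H', x', h2, h3, h4⟩ := ihm (m - 1) (by omega) {w : W // w ≠ y} (contract H x y) hcard
        (by omega) (by omega)
      exact ⟨W', i, H', x', (minor_contract H x y hxy).trans h2, h3, h4⟩
    · push Not at hcc
      have hpos : 0 < ord H := by
        have : 0 < 2 * c * m := by positivity
        omega
      unfold ord at hpos
      obtain ⟨⟨x, b⟩, hxb⟩ := Finset.card_pos.1 hpos
      simp only [mem_filter, mem_univ, true_and] at hxb
      exact ⟨W, inferInstance, H, x, Minor.refl H, ⟨b, hxb⟩, fun z hz => hcc x z hz⟩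

/-- the graph with one more vertex joined to all vertices -/
def cone {U : Type} (K : SimpleGraph U) : SimpleGraph (Option U) where
  Adj a b := match a, b with
    | none, none => False
    | none, some _ => True
    | some _, none => True
    | some u, some v => K.Adj u v
  symm := ⟨by
    rintro (_ | u) (_ | v) h
    · exact h
    · exact h
    · exact h
    · exact SimpleGraph.Adj.symm (G := K) h⟩
  loopless := ⟨by
    rintro (_ | u) h
    · exact h
    · exact K.loopless.irrefl u h⟩

theorem cone_none_some {U : Type} (K : SimpleGraph U) (u : U) : (cone K).Adj none (some u) := trivial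

theorem cone_some_some {U : Type} (K : SimpleGraph U) (u v : U) :
    (cone K).Adj (some u) (some v) ↔ K.Adj u v := Iff.rfl

theorem minor_cone {W U : Type} (H : SimpleGraph W) (x : W) (K : SimpleGraph U)
    (hK : ∀ u, ∃ v, K.Adj u v)
    (h : Minor (H.comap (Subtype.val : {z // H.Adj x z} → W)) K) : Minor H (cone K) := by
  obtain ⟨C, hCc, hCd, hCa⟩ := h
  have hne : ∀ u, ∃ a, a ∈ C u := by
    intro u
    obtain ⟨v, hv⟩ := hK u
    obtain ⟨a, ha, _⟩ := hCa u v hv
    exact ⟨a, ha⟩
  have h0 : ∀ u, Disjoint ({x} : Set W) (Subtype.val '' C u) := by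
    intro u
    rw [Set.disjoint_left]
    rintro z hz ⟨a, _, rfl⟩
    have h1 : a.1 = x := hz
    have h2 := a.2
    rw [h1] at h2
    exact H.loopless.irrefl _ h2
  refine ⟨fun o => match o with
    | none => {x}
    | some u => Subtype.val '' C u, ?_, ?_, ?_⟩
  · rintro (_ | u)
    · exact conn_of_subset_singleton x (fun z hz => hz)
    · rintro _ ⟨a, ha, rfl⟩ _ ⟨b, hb, rfl⟩
      refine Relation.ReflTransGen.lift Subtype.val ?_ _ _ (hCc u a ha b hb)
      rintro p q ⟨hp, hq, hpq⟩
      exact ⟨⟨p, hp, rfl⟩, ⟨q, hq, rfl⟩, hpq⟩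
  · rintro (_ | u) (_ | v) huv
    · exact absurd rfl huv
    · exact h0 v
    · exact (h0 u).symm
    · have huv' : u ≠ v := fun h => huv (by rw [h])
      rw [Set.disjoint_left]
      rintro _ ⟨a, ha, rfl⟩ ⟨b, hb, hab⟩
      have : b = a := Subtype.ext hab
      rw [this] at hb
      exact Set.disjoint_left.1 (hCd u v huv') ha hb
  · rintro (_ | u) (_ | v) huv
    · exact absurd huv (by intro h; exact h)
    · obtain ⟨a, ha⟩ := hne v
      exact ⟨x, rfl, a.1, ⟨a, ha, rfl⟩, a.2⟩
    · obtain ⟨a, ha⟩ := hne u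
      exact ⟨a.1, ⟨a, ha, rfl⟩, x, rfl, a.2.symm⟩
    · obtain ⟨a, ha, b, hb, hab⟩ := hCa u v huv
      exact ⟨a.1, ⟨a, ha, rfl⟩, b.1, ⟨b, hb, rfl⟩, hab⟩

/-- the edges of the spider with centre `0` and legs `1 4`, `2 5`, `3 6` -/
def spB (a b : Fin 7) : Bool :=
  (a == 0 && (b == 1 || b == 2 || b == 3)) || (a == 1 && b == 4) || (a == 2 && b == 5) || (a == 3 && b == 6)

/-- the spider with three legs of length two -/
def spider : SimpleGraph (Fin 7) where
  Adj a b := spB a b = true ∨ spB b a = true
  symm := ⟨fun _ _ h => h.symm⟩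
  loopless := ⟨by decide⟩

theorem exists_new {W : Type} [DecidableEq W] (S T : Finset W) (h : T.card < S.card) : ∃ a ∈ S, a ∉ T := by
  by_contra hcon
  push Not at hcon
  exact absurd (Finset.card_le_card (fun a ha => hcon a ha)) (by omega)

open Classical in
theorem spider_of_dense {W : Type} [Fintype W] (H : SimpleGraph W) (y : W) (hb : ∃ b, H.Adj y b)
    (h6 : ∀ z, H.Adj y z → 6 ≤ (univ.filter fun w => H.Adj y w ∧ H.Adj z w).card) :
    Minor H (cone spider) := by
  have pick : ∀ z, H.Adj y z → ∀ T : Finset W, T.card ≤ 5 → ∃ a, H.Adj y a ∧ H.Adj z a ∧ a ∉ T := by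
    intro z hz T hT
    obtain ⟨a, ha, haT⟩ := exists_new _ T (lt_of_le_of_lt hT (h6 z hz))
    rw [mem_filter] at ha
    exact ⟨a, ha.2.1, ha.2.2, haT⟩
  obtain ⟨v0, h0⟩ := hb
  obtain ⟨v1, h1, h01, n1⟩ := pick v0 h0 ∅ (by simp)
  obtain ⟨v2, h2, h02, n2⟩ := pick v0 h0 {v1} (by simp)
  obtain ⟨v3, h3, h03, n3⟩ := pick v0 h0 {v1, v2} (card_le_two.trans (by norm_num))
  obtain ⟨v4, h4, h14, n4⟩ := pick v1 h1 {v0, v2, v3} (card_le_three.trans (by norm_num))
  obtain ⟨v5, h5, h25, n5⟩ := pick v2 h2 {v0, v1, v3, v4} (card_le_four.trans (by norm_num))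
  obtain ⟨v6, h6', h36, n6⟩ := pick v3 h3 {v0, v1, v2, v4, v5} card_le_five
  simp only [mem_singleton, mem_insert, not_or] at n2 n3 n4 n5 n6
  have d01 := h01.ne
  have d02 := h02.ne
  have d03 := h03.ne
  have d14 := h14.ne
  have d25 := h25.ne
  have d36 := h36.ne
  have y0 := h0.ne
  have y1 := h1.ne
  have y2 := h2.ne
  have y3 := h3.ne
  have y4 := h4.ne
  have y5 := h5.ne
  have y6 := h6'.ne
  refine Minor.of_injective (fun o => match o with
    | none => y
    | some i => ![v0, v1, v2, v3, v4, v5, v6] i) ?_ ?_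
  · have hnd : [y, v0, v1, v2, v3, v4, v5, v6].Nodup := by
      simp only [List.nodup_cons, List.mem_cons, List.not_mem_nil, or_false, not_or, List.nodup_nil, and_true,
        not_false_eq_true]
      obtain ⟨a1, a2⟩ := n3
      obtain ⟨b1, b2, b3⟩ := n4
      obtain ⟨c1, c2, c3, c4⟩ := n5
      obtain ⟨e1, e2, e3, e4, e5⟩ := n6
      refine ⟨⟨y0, y1, y2, y3, y4, y5, y6⟩, ⟨d01, d02, d03, Ne.symm b1, Ne.symm c1, Ne.symm e1⟩,
        ⟨Ne.symm n2, Ne.symm a1, d14, Ne.symm c2, Ne.symm e2⟩,
        ⟨Ne.symm a2, Ne.symm b2, d25, Ne.symm e3⟩, ⟨Ne.symm b3, Ne.symm c3, d36⟩, ⟨Ne.symm c4, Ne.symm e4⟩,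
        Ne.symm e5⟩
    have hfun : ∀ o : Option (Fin 7), (match o with
        | none => y
        | some i => ![v0, v1, v2, v3, v4, v5, v6] i) =
        [y, v0, v1, v2, v3, v4, v5, v6].get (match o with
          | none => ⟨0, by simp⟩
          | some i => ⟨i.1 + 1, by have := i.2; simp only [List.length_cons, List.length_nil]; omega⟩) := by
      rintro (_ | i)
      · rfl
      · fin_cases i <;> rfl
    intro a b hab
    simp only [hfun] at hab
    have h7 := List.nodup_iff_injective_get.1 hnd hab
    rcases a with _ | a <;> rcases b with _ | b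
    · rfl
    · simp at h7
    · simp at h7
    · simp only [Fin.mk.injEq, Nat.add_right_cancel_iff] at h7
      rw [Fin.ext h7]
  · rintro (_ | a) (_ | b) hab
    · exact absurd hab (by intro h; exact h)
    · fin_cases b
      · exact h0
      · exact h1
      · exact h2
      · exact h3
      · exact h4
      · exact h5
      · exact h6'
    · fin_cases a
      · exact h0.symm
      · exact h1.symm
      · exact h2.symm
      · exact h3.symm
      · exact h4.symm
      · exact h5.symm
      · exact h6'.symm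
    · have key : ∀ a b : Fin 7, spB a b = true →
          H.Adj (![v0, v1, v2, v3, v4, v5, v6] a) (![v0, v1, v2, v3, v4, v5, v6] b) := by
        intro a b h
        have h' : (a = 0 ∧ b = 1) ∨ (a = 0 ∧ b = 2) ∨ (a = 0 ∧ b = 3) ∨ (a = 1 ∧ b = 4) ∨
            (a = 2 ∧ b = 5) ∨ (a = 3 ∧ b = 6) := by
          revert a b
          decide
        rcases h' with ⟨rfl, rfl⟩ | ⟨rfl, rfl⟩ | ⟨rfl, rfl⟩ | ⟨rfl, rfl⟩ | ⟨rfl, rfl⟩ | ⟨rfl, rfl⟩
        · exact h01
        · exact h02
        · exact h03
        · exact h14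
        · exact h25
        · exact h36
      rcases hab with h | h
      · exact key a b h
      · exact (key b a h).symm

theorem spider_nb : ∀ u : Fin 7, ∃ v, spider.Adj u v := by
  unfold spider
  simp only
  decide

theorem cone_nb {U : Type} (K : SimpleGraph U) [Nonempty U] : ∀ u, ∃ v, (cone K).Adj u v := by
  rintro (_ | u)
  · obtain ⟨v⟩ := ‹Nonempty U›
    exact ⟨some v, trivial⟩
  · exact ⟨none, trivial⟩

open Classical in
/-- a graph in which every vertex set has average degree at least 24 has the required minor -/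
theorem minor_of_dense {W : Type} [Fintype W] [Nonempty W] (H : SimpleGraph W)
    (h : ∀ v, 24 ≤ (univ.filter fun w => H.Adj v w).card) : Minor H (cone (cone spider)) := by
  have h1 : 2 * 12 * Fintype.card W ≤ ord H := by
    rw [ord_eq_sum]
    calc 2 * 12 * Fintype.card W = ∑ _v : W, 24 := by
          rw [Finset.sum_const, card_univ, smul_eq_mul]
          ring
      _ ≤ _ := Finset.sum_le_sum fun v _ => h v
  obtain ⟨W', i, H', x, hm, ⟨b, hb⟩, hc⟩ := dense_step 12 (by norm_num) _ W H rfl Fintype.card_pos h1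
  refine hm.trans ?_
  apply minor_cone H' x (cone spider) (cone_nb spider)
  set K := H'.comap (Subtype.val : {z // H'.Adj x z} → W') with hK
  have h2 : 2 * 6 * Fintype.card {z // H'.Adj x z} ≤ ord K := by
    rw [ord_eq_sum]
    calc 2 * 6 * Fintype.card {z // H'.Adj x z} = ∑ _v : {z // H'.Adj x z}, 12 := by
          rw [Finset.sum_const, card_univ, smul_eq_mul]
          ring
      _ ≤ _ := Finset.sum_le_sum fun z _ => ?_
    refine (hc z.1 z.2).trans ?_
    have h4 : (univ.filter fun w => H'.Adj x w ∧ H'.Adj z.1 w) ⊆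
        (univ.filter fun w => K.Adj z w).image Subtype.val := by
      intro w hw
      simp only [mem_filter, mem_univ, true_and] at hw
      rw [mem_image]
      refine ⟨⟨w, hw.1⟩, ?_, rfl⟩
      simp only [mem_filter, mem_univ, true_and]
      exact hw.2
    exact (card_le_card h4).trans card_image_le
  have hne : 0 < Fintype.card {z // H'.Adj x z} := Fintype.card_pos_iff.2 ⟨⟨b, hb⟩⟩
  obtain ⟨W2, i2, K', y, hm2, hb2, hc2⟩ := dense_step 6 (by norm_num) _ _ K rfl hne h2
  exact hm2.trans (spider_of_dense K' y hb2 hc2)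

open Classical in
theorem degenerate {V : Type} (G : SimpleGraph V) (hG : ¬ Minor G (cone (cone spider))) (X : Finset V)
    (hX : X.Nonempty) : ∃ v ∈ X, (X.filter fun u => G.Adj v u).card ≤ 23 := by
  by_contra hcon
  push Not at hcon
  apply hG
  obtain ⟨v0, hv0⟩ := hX
  have : Nonempty {v // v ∈ X} := ⟨⟨v0, hv0⟩⟩
  have h1 : Minor (G.comap (Subtype.val : {v // v ∈ X} → V)) (cone (cone spider)) := by
    apply minor_of_dense
    intro v
    have h2 := hcon v.1 v.2
    refine le_trans h2 ?_
    have h3 : X.filter (fun u => G.Adj v.1 u) ⊆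
        (univ.filter fun w => (G.comap (Subtype.val : {v // v ∈ X} → V)).Adj v w).image Subtype.val := by
      intro u hu
      rw [mem_filter] at hu
      rw [mem_image]
      refine ⟨⟨u, hu.1⟩, ?_, rfl⟩
      simp only [mem_filter, mem_univ, true_and]
      exact hu.2
    exact (card_le_card h3).trans card_image_le
  exact (Minor.of_injective (Subtype.val : {v // v ∈ X} → V) Subtype.val_injective (fun _ _ h => h)).trans h1

end Pool.Agent.H42.LD
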